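import Pool.Agent.Lib.H1M.BR.M076

set_option autoImplicit false

/-!
Entire curves in varieties with a finite morphism to projective space which is ramified over a generic
hypersurface, with explicit bounds: degree `C n ^ 3 (log n) ^ 3` for all ramification, for example for
double covers, degree `C n ^ 2 (log n) ^ 2` for strong ramification and for the complement.
-/

open MvPolynomial

namespace Pool.Agent.Results.MP_2a5ae2_ag.ExplicitBranching

/-- `P` holds for all forms of degree `k` in `n + 1` variables outside a proper algebraic subset: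
there is a polynomial `Θ` in the coefficients, not vanishing at all forms of degree `k`, such that
`P` holds for the forms of degree `k` at which `Θ` does not vanish. -/
def ForGenericForm (n k : ℕ) (P : MvPolynomial (Fin (n + 1)) ℂ → Prop) : Prop :=
  ∃ Θ : MvPolynomial (Fin (n + 1) →₀ ℕ) ℂ,
    (∃ F : MvPolynomial (Fin (n + 1)) ℂ, F.IsHomogeneous k ∧
      eval (fun d => coeff d F) Θ ≠ 0) ∧
    ∀ F : MvPolynomial (Fin (n + 1)) ℂ, F.IsHomogeneous k →
      eval (fun d => coeff d F) Θ ≠ 0 → P F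

/-- The action of `ℂˣ` with weights `w`. -/
def action {m : ℕ} (w : Fin m → ℕ) (t : ℂ) (x : Fin m → ℂ) : Fin m → ℂ :=
  fun i => t ^ w i * x i

/-- The cone without its vertex over the closed subset defined by `J`. -/
def cone {m : ℕ} (J : Ideal (MvPolynomial (Fin m) ℂ)) : Set (Fin m → ℂ) :=
  {x | x ≠ 0 ∧ ∀ F ∈ J, eval x F = 0}

/-- `J` is the ideal of a projective variety `X = cone J / ℂˣ` in a weighted projective space,
on whose cone `ℂˣ` acts freely. (Any projective variety in projective space: all weights `1`.) -/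
structure IsWeightedProjective {m : ℕ} (w : Fin m → ℕ) (J : Ideal (MvPolynomial (Fin m) ℂ)) :
    Prop where
  weights : ∀ i, 1 ≤ w i
  prime : J.IsPrime
  homogeneous : ∀ F ∈ J, ∀ d, weightedHomogeneousComponent w d F ∈ J
  nonempty : (cone J).Nonempty
  free : ∀ x ∈ cone J, ∀ t : ℂ, action w t x = x → t = 1

/-- The forms `f j` of degree `D ≥ 1` have no common zero on `X`, i.e. they define a finite
morphism from `X` to `ℙⁿ` (`X` may have any dimension at most `n`). -/
structure IsFiniteMorphism {m n : ℕ} (w : Fin m → ℕ) (J : Ideal (MvPolynomial (Fin m) ℂ))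
    (D : ℕ) (f : Fin (n + 1) → MvPolynomial (Fin m) ℂ) : Prop where
  pos : 1 ≤ D
  homogeneous : ∀ j, (f j).IsWeightedHomogeneous w D
  base_point_free : ∀ x ∈ cone J, ∃ j, eval x (f j) ≠ 0

/-- In the local ring at `x` of the cone over `X`, the form `R` lies in the `a`-th power of the
maximal ideal. -/
def MultiplicityAtLeast {m : ℕ} (J : Ideal (MvPolynomial (Fin m) ℂ)) (x : Fin m → ℂ) (a : ℕ)
    (R : MvPolynomial (Fin m) ℂ) : Prop :=
  ∃ S : MvPolynomial (Fin m) ℂ, eval x S ≠ 0 ∧ S * R ∈ J ⊔ RingHom.ker (eval x) ^ a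

/-- `u` gives an entire curve in `X / ℂˣ`: a nonconstant holomorphic map from `ℂ`. (The action on
`X` is free, so all entire curves lift to `X`.) -/
structure IsEntireCurve {m : ℕ} (w : Fin m → ℕ) (X : Set (Fin m → ℂ)) (u : ℂ → Fin m → ℂ) :
    Prop where
  holomorphic : ∀ i, Differentiable ℂ fun z => u z i
  mem : ∀ z, u z ∈ X
  nonconstant : ∃ z z', ∀ t : ℂ, u z' ≠ action w t (u z)

/-- A proper closed subset of `X / ℂˣ` contains all entire curves. -/
def PseudoBrody {m : ℕ} (w : Fin m → ℕ) (X : Set (Fin m → ℂ)) : Prop :=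
  ∃ T : Set (MvPolynomial (Fin m) ℂ), (∀ g ∈ T, ∃ d, g.IsWeightedHomogeneous w d) ∧
    (∃ x ∈ X, ∃ g ∈ T, eval x g ≠ 0) ∧
    ∀ u, IsEntireCurve w X u → ∀ z, ∀ g ∈ T, eval (u z) g = 0

/-- Let `n ≥ 1`, `κ ≥ 0` and (i) `κ < d - 90 n d ^ (2 / 3) (1 + log d)` or
(ii) `d ≥ 1 + 1000 n² (6 + log n)² + 101 n² (6 + log n) ⌈κ⌉`, and let `F` be the generic form of degree
`d` in `n + 1` variables.  Let `f : X → ℙⁿ` be any finite morphism from a projective variety, given by
forms of degree `D`, and let `R` be a form on `X` of degree at most `e κ D`, `e ≥ 1`, not vanishing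
identically on `X`.

(1) All entire curves `u` in `X` for which `R (u)` vanishes to order at least `e` at all points where
`u` meets `F (f) = 0` lie in `R = 0`.

(2) Hence, if `R` has multiplicity at least `e` at all points of `X` over `F = 0`, then all entire
curves in `X` lie in `R = 0`, and `X` is pseudo-Brody hyperbolic.  If moreover `R` vanishes only at
points over `F = 0`, then `X` contains no entire curve at all.

Examples.  For (2), with no entire curve in `X`: the double covers `z ^ 2 = F` of `ℙⁿ`, or of any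
projective variety in `ℙⁿ` not contained in `F = 0`, for even `d > (180 n (1 + log d)) ^ 3` (`R = z`,
`e = 1`, `κ = d / 2`, condition (i)), and so all cyclic covers `z ^ s = F`, `s ∣ d`, of these degrees;
the cyclic covers with `s ≥ 202 n² (6 + log n)` for `d ≥ 2 + 2000 n² (6 + log n)²` (`κ = d / s`,
condition (ii)); all `X` for which `F ∘ f` lies in the `s`-th power of the maximal ideal at all points
over `F = 0` (`R = F ∘ f`, `e = s`, `κ = d / s`).  For (1): `X = ℙⁿ`, `R = 1`, `e = 1`, `κ = 0`: there is no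
entire curve in the complement of `F = 0` for `d ≥ 1 + 1000 n² (6 + log n)²`; `X = ℙⁿ`, `R = F`,
`e ≥ 2`: there is no entire curve which meets `F = 0` with multiplicities at least `e` only. -/
theorem result (n d : ℕ) (κ : ℝ) (hn : 1 ≤ n) (hκ : 0 ≤ κ)
    (hd : κ < d - 90 * n * (d : ℝ) ^ (2 / 3 : ℝ) * (1 + Real.log d) ∨
      1 + 1000 * (n : ℝ) ^ 2 * (6 + Real.log n) ^ 2 +
        101 * (n : ℝ) ^ 2 * (6 + Real.log n) * ⌈κ⌉₊ ≤ d) :
    ForGenericForm n d fun F =>
      ∀ (m : ℕ) (w : Fin m → ℕ) (J : Ideal (MvPolynomial (Fin m) ℂ)) (D : ℕ)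
        (f : Fin (n + 1) → MvPolynomial (Fin m) ℂ), IsWeightedProjective w J →
        IsFiniteMorphism w J D f →
        ∀ (e a : ℕ) (R : MvPolynomial (Fin m) ℂ), 1 ≤ e → R.IsWeightedHomogeneous w a → R ∉ J →
          (a : ℝ) ≤ e * (κ * D) →
          (∀ u, IsEntireCurve w (cone J) u →
            (∀ z, eval (fun j => eval (u z) (f j)) F = 0 →
              (e : ℕ∞) ≤ analyticOrderAt (fun z => eval (u z) R) z) →
            ∀ z, eval (u z) R = 0) ∧
          ((∀ x ∈ cone J, eval (fun j => eval x (f j)) F = 0 → MultiplicityAtLeast J x e R) →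
            (∀ u, IsEntireCurve w (cone J) u → ∀ z, eval (u z) R = 0) ∧
            PseudoBrody w (cone J) ∧
            ((∀ x ∈ cone J, eval x R = 0 → eval (fun j => eval x (f j)) F = 0) →
              ¬ ∃ u, IsEntireCurve w (cone J) u)) := by
  obtain ⟨hd0, ε, hε, Θ, hΘ, hΘ'⟩ := Pool.Agent.H53L.smt_both hn hκ hd
  obtain ⟨Θ₁, hΘ₁, hhyp⟩ := Pool.Agent.H53L.hyp_explicit hn hd0
  refine ⟨Θ * Θ₁, Pool.Agent.H49B.nonTriv_mul hΘ hΘ₁, fun F hF hF0 => ?_⟩
  rw [map_mul] at hF0
  have hFa := left_ne_zero_of_mul hF0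
  have hFb := right_ne_zero_of_mul hF0
  have hsmt := hΘ' F hF hFa
  intro m w J D f hJ hf e a R he hR hRJ ha
  have hcurve : ∀ u, IsEntireCurve w (cone J) u →
      (∀ z, eval (fun j => eval (u z) (f j)) F = 0 →
        (e : ℕ∞) ≤ analyticOrderAt (fun z => eval (u z) R) z) → ∀ z, eval (u z) R = 0 :=
    fun u hu hord z => Pool.Agent.H53L.cov_R_eq_zero hf.pos he hε hsmt hJ.weights
      (fun x hx t => Pool.Agent.H89T.eval_act_mem hJ.homogeneous hx t)
      hf.homogeneous (fun x hx hxJ => hf.base_point_free x ⟨hx, hxJ⟩) hR ha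
      ⟨hu.holomorphic, fun z => (hu.mem z).1⟩ (fun z => (hu.mem z).2) hord hu.nonconstant z
  refine ⟨hcurve, fun hmult => ?_⟩
  have hmain : ∀ u, IsEntireCurve w (cone J) u → ∀ z, eval (u z) R = 0 := by
    intro u hu
    refine hcurve u hu fun z hz => ?_
    obtain ⟨S, hS, hSR⟩ := hmult (u z) (hu.mem z) hz
    exact Pool.Agent.H89T.t3_order ⟨hu.holomorphic, fun z => (hu.mem z).1⟩
      (fun z => (hu.mem z).2) hS hSR
  have hpt : ∃ x ∈ cone J, eval x R ≠ 0 := by
    obtain ⟨x₀, hx₀⟩ := hJ.nonempty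
    obtain ⟨j, hj⟩ := hf.base_point_free x₀ hx₀
    have hfJ : f j ∉ J := fun h => hj (hx₀.2 _ h)
    have hRf : R * f j ∉ J := fun h => (hJ.prime.mem_or_mem h).elim hRJ hfJ
    obtain ⟨x, hxJ, hx⟩ := Pool.Agent.H89T.t3_null J hJ.prime _ hRf
    rw [map_mul] at hx
    refine ⟨x, ⟨fun h0 => right_ne_zero_of_mul hx ?_, hxJ⟩, left_ne_zero_of_mul hx⟩
    have h1 := Pool.Agent.H89T.eval_act (hf.homogeneous j) 0 x
    have hD := hf.pos
    rw [zero_pow (by omega), zero_mul] at h1
    rw [h0]
    have h2 : Pool.Agent.H89T.act w 0 x = 0 := by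
      funext i
      have := hJ.weights i
      simp [Pool.Agent.H89T.act, zero_pow (show w i ≠ 0 by omega)]
    rwa [h2] at h1
  obtain ⟨x, hx, hxR⟩ := hpt
  refine ⟨hmain, ⟨{R}, ?_, ⟨x, hx, R, rfl, hxR⟩, ?_⟩, ?_⟩
  · rintro _ rfl
    exact ⟨a, hR⟩
  · rintro u hu z _ rfl
    exact hmain u hu z
  · rintro hR0 ⟨u, hu⟩
    exact Pool.Agent.H49B.no_curve (hhyp F hF hFb) hJ.weights hJ.homogeneous hf.pos hf.homogeneous
      (fun x hx hxJ => hf.base_point_free x ⟨hx, hxJ⟩)
      ⟨hu.holomorphic, fun z => (hu.mem z).1⟩ (fun z => (hu.mem z).2) hu.nonconstant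
      fun z => hR0 _ (hu.mem z) (hmain u hu z)

end Pool.Agent.Results.MP_2a5ae2_ag.ExplicitBranching
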