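import Pool.Agent.Lib.H78X.F3
import Pool.Agent.Lib.H78X.LB2
import Pool.Agent.Lib.H78V.W13
import Pool.Agent.Lib.H89T.DP4
import Pool.Agent.Lib.H89T.T3

set_option autoImplicit false

/-!
Entire curves in varieties with a finite morphism to projective space and random hypersurfaces of
degree `d`: a constant times `(1 + log d) n` hypersurfaces suffice, with multiplicities two, and
`2 n + 1` hyperplanes in general position never suffice.
-/

open MvPolynomial MeasureTheory ProbabilityTheory

namespace Pool.Agent.Results.MP_2a5ae2_ag.LinearBranching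

/-- The law of `q` independent standard Gaussian tensors in `(ℂⁿ⁺¹)^(⊗ d)`. -/
noncomputable def gaussian (n d q : ℕ) :
    Measure (Fin q → EuclideanSpace ℂ (Fin d → Fin (n + 1))) :=
  Measure.pi fun _ => stdGaussian (EuclideanSpace ℂ (Fin d → Fin (n + 1)))

/-- The value at `x` of the form `F i` of degree `d` given by the tensor `a i`: the Hermitian product
`⟨a i, x ⊗ ... ⊗ x⟩`. If `a` has the law `gaussian n d q`, the forms `F i` are independent Gaussian forms
with the unitarily invariant law (for `d = 1`: the hyperplanes `F i = 0` are uniformly distributed). -/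
noncomputable def form {q n d : ℕ} (a : Fin q → EuclideanSpace ℂ (Fin d → Fin (n + 1)))
    (i : Fin q) (x : Fin (n + 1) → ℂ) : ℂ :=
  ∑ I : Fin d → Fin (n + 1), (starRingEnd ℂ) (a i I) * ∏ k, x (I k)

/-- The pull-back `F i (f 0, ..., f n)`, a polynomial. -/
noncomputable def pullback {m n q d : ℕ} (a : Fin q → EuclideanSpace ℂ (Fin d → Fin (n + 1)))
    (i : Fin q) (f : Fin (n + 1) → MvPolynomial (Fin m) ℂ) : MvPolynomial (Fin m) ℂ :=
  ∑ I : Fin d → Fin (n + 1), C ((starRingEnd ℂ) (a i I)) * ∏ k, f (I k)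

/-- Any `n + 1` of the hypersurfaces `F i = 0` of `ℙⁿ` have no common point. -/
def GeneralPosition {q n d : ℕ} (a : Fin q → EuclideanSpace ℂ (Fin d → Fin (n + 1))) : Prop :=
  ∀ e : Fin (n + 1) → Fin q, Function.Injective e →
    ∀ x : Fin (n + 1) → ℂ, (∀ j, form a (e j) x = 0) → x = 0

/-- On the open set `S`, outside the zeros of the function `g`, the curve `y` in `ℙⁿ` meets each
of the hypersurfaces with multiplicity at least two at all common points (or lies in the
hypersurface): all simple zeros of the function `F i (y z)` are zeros of `g`. -/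
def MeetsDoubly {q n d : ℕ} (a : Fin q → EuclideanSpace ℂ (Fin d → Fin (n + 1))) (S : Set ℂ)
    (y : ℂ → Fin (n + 1) → ℂ) (g : ℂ → ℂ) : Prop :=
  ∀ i, ∀ z ∈ S, form a i (y z) = 0 → deriv (fun z => form a i (y z)) z = 0 ∨ g z = 0

/-- The squared Hermitian norm. -/
noncomputable def normSq {n : ℕ} (x : Fin (n + 1) → ℂ) : ℝ := ∑ j, ‖x j‖ ^ 2

/-- The squared norm of `x ∧ v`. -/
noncomputable def wedgeSq {n : ℕ} (x v : Fin (n + 1) → ℂ) : ℝ :=
  normSq x * normSq v - ‖∑ j, (starRingEnd ℂ) (x j) * v j‖ ^ 2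

/-- The action of `ℂˣ` with weights `w`. -/
def action {m : ℕ} (w : Fin m → ℕ) (t : ℂ) (x : Fin m → ℂ) : Fin m → ℂ :=
  fun i => t ^ w i * x i

/-- The cone without its vertex over the closed subset defined by `J`. -/
def cone {m : ℕ} (J : Ideal (MvPolynomial (Fin m) ℂ)) : Set (Fin m → ℂ) :=
  {x | x ≠ 0 ∧ ∀ F ∈ J, eval x F = 0}

/-- `J` defines a closed subscheme `X` (for example a variety) of a weighted projective space, and
`ℂˣ` acts freely on its cone. (Any closed subscheme of projective space: all weights `1`.) -/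
structure IsWeightedProjective {m : ℕ} (w : Fin m → ℕ) (J : Ideal (MvPolynomial (Fin m) ℂ)) :
    Prop where
  weights : ∀ i, 1 ≤ w i
  homogeneous : ∀ F ∈ J, ∀ d, weightedHomogeneousComponent w d F ∈ J
  free : ∀ x ∈ cone J, ∀ t : ℂ, action w t x = x → t = 1

/-- The forms `f j` of degree `δ ≥ 1` have no common zero on `X`, i.e. they define a finite
morphism from `X` to `ℙⁿ` (`X` may have any dimension at most `n`). -/
structure IsFiniteMorphism {m n : ℕ} (w : Fin m → ℕ) (J : Ideal (MvPolynomial (Fin m) ℂ))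
    (δ : ℕ) (f : Fin (n + 1) → MvPolynomial (Fin m) ℂ) : Prop where
  pos : 1 ≤ δ
  homogeneous : ∀ j, (f j).IsWeightedHomogeneous w δ
  base_point_free : ∀ x ∈ cone J, ∃ j, eval x (f j) ≠ 0

/-- In the local ring at `x` of the cone over `X`, the form `F` lies in the `b`-th power of the
maximal ideal. -/
def MultiplicityAtLeast {m : ℕ} (J : Ideal (MvPolynomial (Fin m) ℂ)) (x : Fin m → ℂ) (b : ℕ)
    (F : MvPolynomial (Fin m) ℂ) : Prop :=
  ∃ S : MvPolynomial (Fin m) ℂ, eval x S ≠ 0 ∧ S * F ∈ J ⊔ RingHom.ker (eval x) ^ b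

/-- `u` gives an entire curve in `X / ℂˣ`: a nonconstant holomorphic map from `ℂ`. (The action on
`X` is free, so all entire curves lift to `X`.) -/
structure IsEntireCurve {m : ℕ} (w : Fin m → ℕ) (X : Set (Fin m → ℂ)) (u : ℂ → Fin m → ℂ) :
    Prop where
  holomorphic : ∀ i, Differentiable ℂ fun z => u z i
  mem : ∀ z, u z ∈ X
  nonconstant : ∃ z z', ∀ t : ℂ, u z' ≠ action w t (u z)

/-- The curve `u` in `X`, composed with `f`, as a curve in `ℙⁿ`. -/
noncomputable def image {m n : ℕ} (f : Fin (n + 1) → MvPolynomial (Fin m) ℂ) (u : ℂ → Fin m → ℂ)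
    (z : ℂ) : Fin (n + 1) → ℂ := fun j => eval (u z) (f j)

/-- What is proved about the hypersurfaces `F i = 0` of degree `d` given by `a`. -/
structure Good {q n d : ℕ} (D K : ℝ) (a : Fin q → EuclideanSpace ℂ (Fin d → Fin (n + 1))) :
    Prop where
  /-- (1) Let `y` be a holomorphic map from the disc of radius `r` to `ℙⁿ` and `g` a holomorphic function
  with `|g| ≤ |y| ^ τ`, `0 ≤ τ ≤ D d`, such that `y` meets all the hypersurfaces doubly, except at zeros of
  `g`. Then its squared Fubini-Study speed at the centre is at most `K / (d r ^ 2) * (|y| ^ τ / |g|)`. (With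
  `g = 1`, `τ = 0`: `ℙⁿ` with the hypersurfaces with multiplicity two is hyperbolic as an orbifold.) -/
  disc : ∀ (τ r : ℝ) (y : ℂ → Fin (n + 1) → ℂ) (g : ℂ → ℂ), 0 ≤ τ → τ ≤ D * d → 0 < r →
    (∀ j, DifferentiableOn ℂ (fun z => y z j) (Metric.ball 0 r)) →
    (∀ z ∈ Metric.ball (0 : ℂ) r, y z ≠ 0) → DifferentiableOn ℂ g (Metric.ball 0 r) →
    (∀ z ∈ Metric.ball (0 : ℂ) r, ‖g z‖ ≤ normSq (y z) ^ (τ / 2)) →
    MeetsDoubly a (Metric.ball 0 r) y g →
    r ^ 2 * wedgeSq (y 0) (fun j => deriv (fun z => y z j) 0) * ‖g 0‖ * d ≤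
      K * normSq (y 0) ^ (2 + τ / 2)
  /-- (2) Let `f : X → ℙⁿ` be a finite morphism defined by forms of degree `δ`, and `R` a form of degree
  `e ≤ D d δ` on `X` (for example `R = 1`). An entire curve in `X` whose image in `ℙⁿ` meets all the
  hypersurfaces doubly, except at zeros of `R`, lies in `R = 0`. -/
  curves : ∀ (m : ℕ) (w : Fin m → ℕ) (J : Ideal (MvPolynomial (Fin m) ℂ)) (δ e : ℕ)
    (f : Fin (n + 1) → MvPolynomial (Fin m) ℂ) (R : MvPolynomial (Fin m) ℂ),
    IsWeightedProjective w J → IsFiniteMorphism w J δ f → R.IsWeightedHomogeneous w e →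
    (e : ℝ) ≤ D * d * δ → ∀ u, IsEntireCurve w (cone J) u →
      MeetsDoubly a Set.univ (image f u) (fun z => eval (u z) R) → ∀ z, eval (u z) R = 0
  /-- (3) If each form `F i (f)` has multiplicity at least two at all points of `X` at which it vanishes and
  `R` does not, then all entire curves in `X` lie in `R = 0`. (For `R = 1`: `X` contains no entire
  curve.) -/
  covers : ∀ (m : ℕ) (w : Fin m → ℕ) (J : Ideal (MvPolynomial (Fin m) ℂ)) (δ e : ℕ)
    (f : Fin (n + 1) → MvPolynomial (Fin m) ℂ) (R : MvPolynomial (Fin m) ℂ),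
    IsWeightedProjective w J → IsFiniteMorphism w J δ f → R.IsWeightedHomogeneous w e →
    (e : ℝ) ≤ D * d * δ →
    (∀ i, ∀ x ∈ cone J, form a i (fun j => eval x (f j)) = 0 → eval x R ≠ 0 →
      MultiplicityAtLeast J x 2 (pullback a i f)) →
    ∀ u, IsEntireCurve w (cone J) u → ∀ z, eval (u z) R = 0
  /-- (4) For example, if `D ≥ 1`, all entire curves `(y, ζ)` in the hypersurface
  `ζ ^ (q d) = F₁(y) ⋯ F_q(y)` of `ℙⁿ⁺¹` lie in `ζ = 0`. -/
  hypersurface : 1 ≤ D → ∀ (y : ℂ → Fin (n + 1) → ℂ) (ζ : ℂ → ℂ),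
    (∀ j, Differentiable ℂ fun z => y z j) → Differentiable ℂ ζ → (∀ z, y z ≠ 0 ∨ ζ z ≠ 0) →
    (∀ z, ζ z ^ (q * d) = ∏ i, form a i (y z)) →
    (∃ z z', ∀ t : ℂ, ¬ (y z' = t • y z ∧ ζ z' = t * ζ z)) → ∀ z, ζ z = 0

private theorem form_smul {q n d : ℕ} (a : Fin q → EuclideanSpace ℂ (Fin d → Fin (n + 1)))
    (i : Fin q) (c : ℂ) (x : Fin (n + 1) → ℂ) : form a i (c • x) = c ^ d * form a i x := by
  unfold form
  rw [Finset.mul_sum]
  refine Finset.sum_congr rfl fun I _ => ?_
  have h1 : ∏ k, (c • x) (I k) = c ^ d * ∏ k, x (I k) := by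
    simp only [Pi.smul_apply, smul_eq_mul]
    rw [Finset.prod_mul_distrib, Finset.prod_const, Finset.card_univ, Fintype.card_fin]
  rw [h1]
  ring

private theorem normSq_nonneg {n : ℕ} (x : Fin (n + 1) → ℂ) : 0 ≤ normSq x :=
  Finset.sum_nonneg fun _ _ => sq_nonneg _

/-- A product of `q` forms of degree `d` is at most a constant times the power of the norm. -/
private theorem prod_bound {q n d : ℕ} (hd : d ≠ 0)
    (a : Fin q → EuclideanSpace ℂ (Fin d → Fin (n + 1))) :
    ∃ B : ℝ, 0 < B ∧ ∀ x : Fin (n + 1) → ℂ,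
      ‖∏ i, form a i x‖ ≤ (B * normSq x ^ ((1 : ℝ) / 2)) ^ (q * d) := by
  have hx : ∀ (x : Fin (n + 1) → ℂ) (j : Fin (n + 1)), ‖x j‖ ≤ normSq x ^ ((1 : ℝ) / 2) := by
    intro x j
    rw [← Real.sqrt_eq_rpow]
    refine Real.le_sqrt_of_sq_le ?_
    exact Finset.single_le_sum (f := fun j => ‖x j‖ ^ 2) (fun _ _ => sq_nonneg _)
      (Finset.mem_univ j)
  have h1 : ∀ (i : Fin q) (x : Fin (n + 1) → ℂ), ‖form a i x‖ ≤
      (∑ I : Fin d → Fin (n + 1), ‖a i I‖) * (normSq x ^ ((1 : ℝ) / 2)) ^ d := by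
    intro i x
    unfold form
    rw [Finset.sum_mul]
    refine (norm_sum_le _ _).trans (Finset.sum_le_sum fun I _ => ?_)
    rw [norm_mul, RCLike.norm_conj, norm_prod]
    refine mul_le_mul_of_nonneg_left ?_ (norm_nonneg _)
    calc ∏ k, ‖x (I k)‖ ≤ ∏ _k : Fin d, normSq x ^ ((1 : ℝ) / 2) :=
          Finset.prod_le_prod (fun k _ => norm_nonneg _) fun k _ => hx x (I k)
      _ = _ := by rw [Finset.prod_const, Finset.card_univ, Fintype.card_fin]
  set M : ℝ := 1 + ∑ i, ∑ I : Fin d → Fin (n + 1), ‖a i I‖ with hM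
  have hM0 : ∀ i : Fin q, 0 ≤ ∑ I : Fin d → Fin (n + 1), ‖a i I‖ := fun i =>
    Finset.sum_nonneg fun _ _ => norm_nonneg _
  have hM1 : 1 ≤ M := by
    have := Finset.sum_nonneg fun i (_ : i ∈ Finset.univ) => hM0 i
    linarith
  refine ⟨M, by linarith, fun x => ?_⟩
  have hn : 0 ≤ normSq x ^ ((1 : ℝ) / 2) := Real.rpow_nonneg (normSq_nonneg x) _
  rw [norm_prod]
  calc ∏ i, ‖form a i x‖ ≤ ∏ _i : Fin q, (M * normSq x ^ ((1 : ℝ) / 2)) ^ d := by
        refine Finset.prod_le_prod (fun i _ => norm_nonneg _) fun i _ => (h1 i x).trans ?_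
        rw [mul_pow]
        refine mul_le_mul_of_nonneg_right ?_ (pow_nonneg hn d)
        have h2 := Finset.single_le_sum (f := fun i : Fin q => ∑ I : Fin d → Fin (n + 1), ‖a i I‖)
          (fun j _ => hM0 j) (Finset.mem_univ i)
        have h3 : M ≤ M ^ d := le_self_pow₀ hM1 hd
        simp only at h2
        linarith
    _ = _ := by
        rw [Finset.prod_const, Finset.card_univ, Fintype.card_fin, ← pow_mul, mul_comm d q]

private theorem good_of {q n d : ℕ} (hq' : q ≠ 0) (hd : d ≠ 0) (D K : ℝ)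
    (a : Fin q → EuclideanSpace ℂ (Fin d → Fin (n + 1)))
    (h : Pool.Agent.H85Q.RGoodT D K a) : Good D K a := by
  have hq : q * d ≠ 0 := Nat.mul_ne_zero hq' hd
  have hd1 : (1 : ℝ) ≤ d := by
    have : 1 ≤ d := Nat.one_le_iff_ne_zero.2 hd
    exact_mod_cast this
  obtain ⟨hdisc, hent⟩ := h
  have hcurves : ∀ (m : ℕ) (w : Fin m → ℕ) (J : Ideal (MvPolynomial (Fin m) ℂ)) (δ e : ℕ)
      (f : Fin (n + 1) → MvPolynomial (Fin m) ℂ) (R : MvPolynomial (Fin m) ℂ),
      IsWeightedProjective w J → IsFiniteMorphism w J δ f → R.IsWeightedHomogeneous w e →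
      (e : ℝ) ≤ D * d * δ → ∀ u, IsEntireCurve w (cone J) u →
        MeetsDoubly a Set.univ (image f u) (fun z => eval (u z) R) → ∀ z, eval (u z) R = 0 := by
    intro m w J δ e f R hJ hf hR he u hu hm
    have hu' : Pool.Agent.H67T.IsHol u := ⟨hu.holomorphic, fun z => (hu.mem z).1⟩
    have hact : ∀ x : Fin m → ℂ, (∀ F ∈ J, eval x F = 0) → ∀ t, ∀ F ∈ J,
        eval (Pool.Agent.H89T.act w t x) F = 0 := fun x hx t =>
      Pool.Agent.H89T.eval_act_mem hJ.homogeneous hx t
    obtain ⟨B, hB, hBb⟩ := Pool.Agent.H85Q.cone_bound w hJ.weights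
      {x : Fin m → ℂ | ∀ F ∈ J, eval x F = 0}
      (by
        have h1 : {x : Fin m → ℂ | ∀ F ∈ J, eval x F = 0} =
            ⋂ F ∈ J, {x : Fin m → ℂ | eval x F = 0} := by
          ext x
          simp
        rw [h1]
        exact isClosed_biInter fun F _ => isClosed_eq (MvPolynomial.continuous_eval F)
          continuous_const)
      (fun x hx t => hact x hx t) δ e hf.pos f hf.homogeneous
      (fun x hx hx0 => hf.base_point_free x ⟨hx0, hx⟩) R hR
    have hδ : (0 : ℝ) < δ := by exact_mod_cast hf.pos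
    have h1 := hent ((e : ℝ) / δ) B (fun j z => eval (u z) (f j)) (fun z => eval (u z) R)
      (by positivity) (by rw [div_le_iff₀ hδ]; exact he) hB
      (fun j => Pool.Agent.H67T.differentiable_eval hu.holomorphic (f j))
      (Pool.Agent.H67T.differentiable_eval hu.holomorphic R)
      (fun z => hf.base_point_free (u z) (hu.mem z))
      (fun i z hz => hm i z (Set.mem_univ z) hz)
      (fun z => hBb (u z) (hu.mem z).2 (hu.mem z).1)
    rcases h1 with h1 | h1
    · exact h1
    · exfalso
      obtain ⟨z, z', hzz⟩ := Pool.Agent.H89T.nonconstant_comp hJ.weights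
        (fun x hx t => Pool.Agent.H89T.eval_act_mem hJ.homogeneous hx t) hf.pos
        hf.homogeneous (fun x hx hxJ => hf.base_point_free x ⟨hx, hxJ⟩) hu'
        (fun z => (hu.mem z).2) hu.nonconstant
      obtain ⟨b, hb⟩ := hf.base_point_free (u z) (hu.mem z)
      apply hzz (eval (u z') (f b) / eval (u z) (f b))
      funext c
      have h2 := h1 z' z c b
      simp only [Pi.smul_apply, smul_eq_mul]
      field_simp
      linear_combination h2
  refine ⟨?_, hcurves, ?_, ?_⟩
  · intro τ r y g h1 h2 h3 h4 h5 h6 h7 h8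
    exact hdisc τ r (fun j z => y z j) g h1 h2 h3 h4 h6 (fun z hz => by
      by_contra hno
      push Not at hno
      exact h5 z hz (funext hno)) h8 h7
  · intro m w J δ e f R hJ hf hR he hmult u hu
    have hu' : Pool.Agent.H67T.IsHol u := ⟨hu.holomorphic, fun z => (hu.mem z).1⟩
    refine hcurves m w J δ e f R hJ hf hR he u hu fun i z _ hz => ?_
    by_cases hR0 : eval (u z) R = 0
    · exact Or.inr hR0
    left
    obtain ⟨S, hS, hSR⟩ := hmult i (u z) (hu.mem z) hz hR0
    have h1 := Pool.Agent.H89T.t3_order hu' (fun z => (hu.mem z).2) hS hSR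
    have h2 : (fun z => eval (u z) (pullback a i f)) =
        fun z => form a i (image f u z) := by
      funext z
      simp [form, image, pullback, map_sum, map_prod]
    rw [h2] at h1
    have h3 : AnalyticAt ℂ (fun z => form a i (image f u z)) z := by
      rw [← h2]
      exact (Pool.Agent.H67T.differentiable_eval hu.holomorphic _).analyticAt z
    by_contra hne
    have h4 := h3.analyticOrderAt_eq_one_of_zero_deriv_ne_zero hz hne
    rw [h4] at h1
    exact absurd h1 (by norm_num)
  · intro hD y ζ hy hζ h0 heq hnc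
    have hy0 : ∀ z, ∃ j, y z j ≠ 0 := by
      intro z
      by_contra hno
      push Not at hno
      have h1 : y z = 0 := funext hno
      rcases h0 z with h2 | h2
      · exact h2 h1
      · have h3 : ζ z ^ (q * d) = 0 := by
          rw [heq z, h1]
          refine Finset.prod_eq_zero (Finset.mem_univ ⟨0, Nat.pos_of_ne_zero hq'⟩) ?_
          have h4 := form_smul a ⟨0, Nat.pos_of_ne_zero hq'⟩ 0 (0 : Fin (n + 1) → ℂ)
          rw [zero_smul, zero_pow hd, zero_mul] at h4
          exact h4
        exact h2 (pow_eq_zero_iff hq |>.1 h3)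
    obtain ⟨B, hB, hBb⟩ := prod_bound hd a
    have hz1 : ∀ i z, Pool.Agent.H85Q.yt a (fun j z => y z j) i z = 0 →
        deriv (Pool.Agent.H85Q.yt a (fun j z => y z j) i) z = 0 ∨ ζ z = 0 := by
      intro i z hz
      right
      have h2 : ζ z ^ (q * d) = 0 := by
        rw [heq z]
        exact Finset.prod_eq_zero (Finset.mem_univ i) hz
      exact pow_eq_zero_iff hq |>.1 h2
    have hz2 : ∀ z, ‖ζ z‖ ≤ B * normSq (y z) ^ ((1 : ℝ) / 2) := by
      intro z
      have h2 : ‖ζ z‖ ^ (q * d) ≤ (B * normSq (y z) ^ ((1 : ℝ) / 2)) ^ (q * d) := by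
        rw [← norm_pow, heq z]
        exact hBb (y z)
      exact (pow_le_pow_iff_left₀ (norm_nonneg _) (mul_nonneg hB.le (Real.rpow_nonneg
        (Finset.sum_nonneg fun _ _ => by positivity) _)) hq).1 h2
    have hDd : 1 ≤ D * d := by nlinarith
    rcases hent 1 B (fun j z => y z j) ζ zero_le_one hDd hB hy hζ hy0 hz1 hz2 with h1 | h1
    · exact h1
    · exfalso
      obtain ⟨z₀, z₁, hzz⟩ := hnc
      obtain ⟨b, hb⟩ := hy0 z₀
      have hyb : ∀ z, y z b ≠ 0 := by
        intro z hzb
        obtain ⟨j, hj⟩ := hy0 z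
        have h2 := h1 z z₀ j b
        rw [hzb, zero_mul] at h2
        exact (mul_ne_zero hj hb) h2
      have hyc : ∀ z, y z = (y z b / y z₀ b) • y z₀ := by
        intro z
        funext j
        have h2 := h1 z z₀ j b
        simp only [Pi.smul_apply, smul_eq_mul]
        field_simp
        linear_combination h2
      have hpow : ∀ z, (ζ z / y z b) ^ (q * d) = (ζ z₀ / y z₀ b) ^ (q * d) := by
        intro z
        rw [div_pow, div_pow, heq z, heq z₀]
        have h2 : ∏ i, form a i ((y z b / y z₀ b) • y z₀) =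
            (y z b / y z₀ b) ^ (q * d) * ∏ i, form a i (y z₀) := by
          rw [Finset.prod_congr rfl fun i _ => form_smul a i _ _, Finset.prod_mul_distrib,
            Finset.prod_const, Finset.card_univ, Fintype.card_fin, ← pow_mul, mul_comm d q]
        have h6 : (∏ i, form a i (y z)) =
            (y z b / y z₀ b) ^ (q * d) * ∏ i, form a i (y z₀) := by
          rw [← h2, ← hyc z]
        rw [h6, div_pow]
        have h4 := pow_ne_zero (q * d) (hyb z)
        have h5 := pow_ne_zero (q * d) (hyb z₀)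
        field_simp
      have hdiff : Differentiable ℂ fun z => ζ z / y z b := fun z =>
        (hζ z).div (hy b z) (hyb z)
      have hbd : Bornology.IsBounded (Set.range fun z => ζ z / y z b) := by
        refine (Metric.isBounded_closedBall (x := (0 : ℂ)) (r := ‖ζ z₀ / y z₀ b‖)).subset ?_
        rintro _ ⟨z, rfl⟩
        rw [mem_closedBall_zero_iff]
        have h2 : ‖ζ z / y z b‖ ^ (q * d) = ‖ζ z₀ / y z₀ b‖ ^ (q * d) := by
          rw [← norm_pow, ← norm_pow, hpow z]
        exact le_of_eq ((pow_left_inj₀ (norm_nonneg _) (norm_nonneg _) hq).1 h2)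
      have hconst := hdiff.apply_eq_apply_of_bounded hbd z₁ z₀
      refine hzz (y z₁ b / y z₀ b) ⟨hyc z₁, ?_⟩
      have h6 := hyb z₁
      have h7 := hyb z₀
      field_simp at hconst
      field_simp
      linear_combination hconst

/-- (I) For every real `D ≥ 0` there are constants `C₀`, `κ > 0`, `K` such that for all `n, d ≥ 1` and
`q ≥ C₀ (1 + log d) n` the following holds with probability at least `1 - exp(-κ q)` for `q` independent
random hypersurfaces `F i = 0` of degree `d` in `ℙⁿ`: for every finite morphism `f : X → ℙⁿ` defined by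
forms of degree `δ` and every form `R` of degree at most `D d δ` on `X`, if the pull-backs of the `F i`
have multiplicities at least two at all points of `X` at which they vanish and `R` does not, then all
entire curves in `X` lie in `R = 0`; see `Good` for the precise statements.

(II) For hyperplanes (`d = 1`) the linear number is necessary: for all `n ≥ 1` and any `2 n + 1`
hyperplanes in general position there is an entire curve in `ℙⁿ` which lies in none of them and meets
all of them with multiplicities at least two only. -/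
theorem result :
    (∀ D : ℝ, 0 ≤ D → ∃ C₀ κ K : ℝ, 0 < κ ∧ ∀ n d q : ℕ, 1 ≤ n → 1 ≤ d →
      C₀ * (1 + Real.log d) * n ≤ q →
        gaussian n d q {a | ¬ Good D K a} ≤ ENNReal.ofReal (Real.exp (-(κ * q)))) ∧
    ∀ n : ℕ, 1 ≤ n → ∀ a : Fin (2 * n + 1) → EuclideanSpace ℂ (Fin 1 → Fin (n + 1)),
      GeneralPosition a →
      ∃ y : ℂ → Fin (n + 1) → ℂ, (∀ j, Differentiable ℂ fun z => y z j) ∧ (∀ z, y z ≠ 0) ∧
        (∃ z z', ∀ t : ℂ, y z' ≠ t • y z) ∧ (∀ i, ∃ z, form a i (y z) ≠ 0) ∧
        MeetsDoubly a Set.univ y (fun _ => 1) := by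
  refine ⟨fun D hD => ?_, fun n hn a ha => ?_⟩
  · obtain ⟨κ, K, C₀, hκ, -, hC₀, h⟩ := Pool.Agent.H85Q.random_hypersurfaces D hD
    refine ⟨C₀, κ, K, hκ, fun n d q hn hd hq => ?_⟩
    have hq0 : q ≠ 0 := by
      rintro rfl
      have h1 : (0 : ℝ) < n := by exact_mod_cast hn
      have h2 : 0 ≤ Real.log d := Real.log_natCast_nonneg d
      have h3 : 0 < C₀ * (1 + Real.log d) * n := by positivity
      have h4 : ((0 : ℕ) : ℝ) = 0 := Nat.cast_zero
      rw [h4] at hq
      linarith
    refine le_trans (measure_mono ?_) (h n d q hn hd hq)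
    intro a ha hgood
    exact ha (good_of hq0 (by omega) D K a hgood)
  · set A : Matrix (Fin (2 * n + 1)) (Fin (n + 1)) ℂ :=
      Matrix.of fun i k => (starRingEnd ℂ) (a i (fun _ => k)) with hA
    have hform : ∀ i x, form a i x = A.mulVec x i := by
      intro i x
      unfold form
      rw [← (Equiv.funUnique (Fin 1) (Fin (n + 1))).symm.sum_comp]
      refine Finset.sum_congr rfl fun k _ => ?_
      have h1 : ((Equiv.funUnique (Fin 1) (Fin (n + 1))).symm k : Fin 1 → Fin (n + 1)) =
          fun _ => k := rfl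
      rw [h1]
      simp [hA]
    obtain ⟨y, h1, h2, h3, h7, h4⟩ := Pool.Agent.H85Q.lb_sharp2 n hn A (by
      intro e he h0
      obtain ⟨x, hx, hx0⟩ := Matrix.exists_mulVec_eq_zero_iff.2 h0
      refine hx (ha e he x fun j => ?_)
      rw [hform]
      have h5 := congrFun hx0 j
      exact h5)
    refine ⟨y, h1, h2, h3, fun i => ?_, fun i z _ hz => Or.inl ?_⟩
    · obtain ⟨z, hz⟩ := h7 i
      exact ⟨z, by rw [hform]; exact hz⟩
    have h6 : (fun w => form a i (y w)) = fun w => A.mulVec (y w) i := by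
      funext w
      exact hform i (y w)
    rw [h6]
    exact h4 i z (by rw [← hform]; exact hz)

end Pool.Agent.Results.MP_2a5ae2_ag.LinearBranching
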