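import Pool.Agent.Lib.H85Q.M1
import Pool.Agent.Lib.H85Q.S2
import Pool.Agent.Lib.H85Q.S4
import Pool.Agent.Lib.H85Q.K12

/-!
# Hyperbolic complete intersections of linear codimension

There is an absolute constant `C` such that for all `n ≥ 1`:
(1) for `c ≥ C n` a nonempty open set of `c`-tuples of quadratic forms on `ℂ^(n+c+1)` defines smooth complete
intersections of dimension `n` in `ℙ^(n+c)` whose second fundamental form satisfies `|II(p,p)|² > 3` for all unit tangent
vectors `p` (so the holomorphic sectional curvature of the Fubini-Study metric is negative), on which every holomorphic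
disc of radius `R` has Fubini-Study speed at most `√2 / R` at its centre, and which contain no entire curve;
(2) for all degrees `d_1, ..., d_c ≥ 1` such that at least `C n` of them are divisible by some `e ≥ 2` (the others are
arbitrary; for example all types `(d, ..., d)` with `d ≥ 2`, `c ≥ C n`), and every projective variety
`V` with a linear projection `V → ℙ^(n+c)` defined on all of `V`, there are `K` and a nonempty open set of `c`-tuples of
forms `G_j` of degrees `d_j` on the space of `V` such that `V ∩ {G_1 = ... = G_c = 0}` contains no entire curve and its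
holomorphic discs of radius `R` have Fubini-Study speed at most `√K / R` at the centre.
-/

namespace Pool.Agent.Results.MP_2a5ae2_ag.LinearCodimension

open Pool.Agent.H85Q

theorem result : ∃ C : ℕ, ∀ n : ℕ, 1 ≤ n →
    (∀ c : ℕ, C * n ≤ c →
      ∃ U : Set (Fin c → Matrix (Fin (n + c + 1)) (Fin (n + c + 1)) ℂ), IsOpen U ∧ U.Nonempty ∧
        ∀ F ∈ U,
          (∃ x : Fin (n + c + 1) → ℂ, x ≠ 0 ∧ ∀ j, quad (F j) x = 0) ∧ Smooth F ∧
          (∀ x p w : Fin (n + c + 1) → ℂ, nsq x = 1 → nsq p = 1 → herm x p = 0 →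
            (∀ j, pol (F j) x x = 0) → (∀ j, pol (F j) x p = 0) →
            (∀ j, pol (F j) p p + pol (F j) x w = 0) → 3 < nsq w) ∧
          (∀ R : ℝ, 0 < R → ∀ x : Fin (n + c + 1) → ℂ → ℂ,
            (∀ a, DifferentiableOn ℂ (x a) (Metric.ball 0 R)) →
            (∀ t ∈ Metric.ball (0 : ℂ) R, ∃ a, x a t ≠ 0) →
            (∀ t ∈ Metric.ball (0 : ℂ) R, ∀ j, quad (F j) (fun a => x a t) = 0) →
            R ^ 2 * wed (fun a => x a 0) (fun a => deriv (x a) 0) ≤
              2 * nsq (fun a => x a 0) ^ 2) ∧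
          (∀ x : Fin (n + c + 1) → ℂ → ℂ, (∀ a, Differentiable ℂ (x a)) →
            (∀ t, ∃ a, x a t ≠ 0) → (∀ t j, quad (F j) (fun a => x a t) = 0) →
            ∀ s t a b, x a s * x b t = x b s * x a t)) ∧
    (∀ (c : ℕ) (d : Fin c → ℕ) (e : ℕ), (∀ j, 1 ≤ d j) → 2 ≤ e →
      C * n ≤ cnt (fun j => e ∣ d j) →
      ∀ (M r : ℕ) (P : Fin r → MvPolynomial (Fin M) ℂ) (m : Fin r → ℕ),
        (∀ i, (P i).IsHomogeneous (m i)) →
        ∀ π : (Fin M → ℂ) →ₗ[ℂ] (Fin (n + c + 1) → ℂ), (∀ x ∈ zeroCone P, π x = 0 → x = 0) →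
        ∃ U : Set (∀ j, Sym (Fin M) (d j) → ℂ), IsOpen U ∧ U.Nonempty ∧
          ∃ K : ℝ, 0 < K ∧ ∀ a ∈ U,
            SmoothT a ∧ DiscV (zeroCone P) a K ∧ NoEntireV (zeroCone P) a) := by
  obtain ⟨C₁, h₁⟩ := main_quadrics
  obtain ⟨C₂, h₂⟩ := exists_types_pow
  refine ⟨C₁ + C₂, fun n hn => ⟨fun c hc => ?_, fun c d e hd he hc M r P m hP π hπ => ?_⟩⟩
  · refine h₁ n hn c (le_trans ?_ hc)
    gcongr
    omega
  · obtain ⟨U, hU, ⟨a₀, ha₀⟩, K, hK, h⟩ :=
      h₂ n hn c d e hd he (le_trans (by gcongr; omega) hc) M r P m hP π hπ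
    refine ⟨U ∩ {a | SmoothT a}, hU.inter (isOpen_smoothT d), ?_, K, hK, fun a ha =>
      ⟨ha.2, h a ha.1⟩⟩
    exact (dense_smoothT d hd).inter_open_nonempty U hU ⟨a₀, ha₀⟩
end Pool.Agent.Results.MP_2a5ae2_ag.LinearCodimension
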