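import Pool.Agent.Lib.H1M.SS.M059

set_option autoImplicit false

/-!
Entire curves in complete intersections and in their symmetric powers: special sets and codimension.
-/

open MvPolynomial

namespace Pool.Agent.Results.MP_2a5ae2_ag.SpecialSets

/-- The index set of the coefficients of the `c`-tuples of forms of degrees `d 0, ..., d (c - 1)` in `N + 1`
variables. -/
abbrev CoefficientIndex (N : ℕ) {c : ℕ} (d : Fin c → ℕ) : Type :=
  Σ j : Fin c, {α : Fin (N + 1) →₀ ℕ // α.degree = d j}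

/-- `P` holds for all `c`-tuples of forms of degrees `d 0, ..., d (c - 1)` in `N + 1` variables outside an algebraic
subset of codimension greater than `s` (of the space of all these tuples): there is an ideal `I` of height greater than
`s` in the polynomial ring in the coefficients, such that `P` holds for the tuples at which not all elements of `I`
vanish. -/
def OutsideCodimension (s N : ℕ) {c : ℕ} (d : Fin c → ℕ)
    (P : (Fin c → MvPolynomial (Fin (N + 1)) ℂ) → Prop) : Prop :=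
  ∃ I : Ideal (MvPolynomial (CoefficientIndex N d) ℂ), (s : ℕ∞) < I.height ∧
    ∀ F : Fin c → MvPolynomial (Fin (N + 1)) ℂ, (∀ j, (F j).IsHomogeneous (d j)) →
      (∃ Θ ∈ I, eval (fun p : CoefficientIndex N d => coeff p.2.1 (F p.1)) Θ ≠ 0) → P F

/-- The points of the `m`-th symmetric power of the projective algebraic set
`X_F = {F_1 = ... = F_c = 0}`: the point `p_1 + ... + p_m` is represented by the product of the linear forms
`∑ p_i,b u_b` in the variables `u` (a form of degree `m`, determined up to a factor by `p_1 + ... + p_m`, which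
determines `p_1 + ... + p_m`). -/
def SymmetricPower (m : ℕ) {N c : ℕ} (F : Fin c → MvPolynomial (Fin (N + 1)) ℂ) :
    Set (MvPolynomial (Fin (N + 1)) ℂ) :=
  {H | ∃ p : Fin m → Fin (N + 1) → ℂ, (∀ i, p i ≠ 0 ∧ ∀ j, eval (p i) (F j) = 0) ∧
    H = ∏ i, ∑ b, C (p i b) * X b}

/-- The points `p_1 + ... + p_m` of the `m`-th symmetric power of `X_F` such that one of the `p_i` is in the algebraic
set `Z` of the common zeros of the forms of `T`: the points of `Z + Sym ^ (m - 1) X_F`. -/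
def SymmetricPowerThrough (m : ℕ) {N c : ℕ} (F : Fin c → MvPolynomial (Fin (N + 1)) ℂ)
    (T : Set (MvPolynomial (Fin (N + 1)) ℂ)) : Set (MvPolynomial (Fin (N + 1)) ℂ) :=
  {H | ∃ p : Fin m → Fin (N + 1) → ℂ, (∀ i, p i ≠ 0 ∧ ∀ j, eval (p i) (F j) = 0) ∧
    H = ∏ i, ∑ b, C (p i b) * X b ∧ ∃ i, ∀ G ∈ T, eval (p i) G = 0}

/-- `H` is a holomorphic family of forms (its coefficients are entire functions) which is not constant up to
scalar factors. -/
structure IsEntireCurve {n : ℕ} (H : ℂ → MvPolynomial (Fin n) ℂ) : Prop where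
  holomorphic : ∀ α, Differentiable ℂ fun z => coeff α (H z)
  nonconstant : ∃ z z', ∀ t : ℂ, H z' ≠ t • H z

/-- All nonconstant entire curves in the `m`-th symmetric power of `X_F` are contained in
`Z + Sym ^ (m - 1) X_F`, where `Z` is a closed subset of `X_F`, of codimension greater than `q - r` in `P ^ N` (written
`q < codim Z + r`; the codimension is the height of the ideal), and `Z` is empty if `N + r ≤ q + 1`. -/
def EntireCurvesInCodimension (m : ℕ) {N c : ℕ} (F : Fin c → MvPolynomial (Fin (N + 1)) ℂ)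
    (q r : ℕ) : Prop :=
  ∃ T : Set (MvPolynomial (Fin (N + 1)) ℂ), (∀ G ∈ T, ∃ e, G.IsHomogeneous e) ∧ (∀ j, F j ∈ T) ∧
    (q : ℕ∞) < (Ideal.span T).height + (r : ℕ∞) ∧
    (N + r ≤ q + 1 → ∀ p : Fin (N + 1) → ℂ, (∀ G ∈ T, eval p G = 0) → p = 0) ∧
    ∀ H : ℂ → MvPolynomial (Fin (N + 1)) ℂ, IsEntireCurve H → (∀ z, H z ∈ SymmetricPower m F) →
      ∀ z, H z ∈ SymmetricPowerThrough m F T

theorem aux {m n c k s : ℕ} {d : Fin c → ℕ} (hk : k ≤ 2 * n)
    (h : Pool.Agent.H24C.SpecSym2 m (n + c) c d) :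
    OutsideCodimension s (k + c) d fun F => EntireCurvesInCodimension m F (2 * n + c) (k + s) := by
  obtain ⟨I, hI, hmain⟩ := h (k + c) s (by omega) (by omega)
  obtain ⟨e, he⟩ : ∃ e : CoefficientIndex (k + c) d ≃ Pool.Agent.H53U.IT (Fin (k + c + 1)) d,
      ∀ F : Fin c → MvPolynomial (Fin (k + c + 1)) ℂ,
        (fun p : CoefficientIndex (k + c) d => coeff p.2.1 (F p.1)) =
          Pool.Agent.H24C.cfT d F ∘ e :=
    ⟨Equiv.sigmaCongrRight fun j => Equiv.subtypeEquivRight fun α =>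
      Pool.Agent.H89T.mem_Ex.symm, fun _ => rfl⟩
  obtain ⟨ρ, hρ⟩ : ∃ ρ : MvPolynomial (CoefficientIndex (k + c) d) ℂ ≃+*
      MvPolynomial (Pool.Agent.H53U.IT (Fin (k + c + 1)) d) ℂ, ∀ Θ, ρ Θ = rename e Θ :=
    ⟨(renameEquiv ℂ e).toRingEquiv, fun _ => rfl⟩
  refine ⟨I.comap ρ, ?_, fun F hF hΘ => ?_⟩
  · rw [RingEquiv.height_comap]
    exact hI
  · obtain ⟨Θ, hΘI, hΘ0⟩ := hΘ
    obtain ⟨T, hT, hFT, hh, h1T, hc⟩ := hmain F hF ⟨ρ Θ, hΘI, by
      rw [hρ, eval_rename, ← he]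
      exact hΘ0⟩
    have hh' : ((2 * n + c : ℕ) : ℕ∞) < (Ideal.span T).height + ((k + s : ℕ) : ℕ∞) := by
      have h2 : ((2 * (n + c) : ℕ) : ℕ∞) = ((2 * n + c : ℕ) : ℕ∞) + ((c : ℕ) : ℕ∞) := by
        rw [← Nat.cast_add]
        congr 1
        ring
      have h3 : ((k + c + s : ℕ) : ℕ∞) = ((k + s : ℕ) : ℕ∞) + ((c : ℕ) : ℕ∞) := by
        rw [← Nat.cast_add]
        congr 1
        ring
      rw [h2, h3, ← add_assoc] at hh
      exact (ENat.add_lt_add_iff_right (ENat.coe_ne_top c)).1 hh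
    refine ⟨T, hT, hFT, hh', fun hr p hp => ?_, fun H hH hHF z => ?_⟩
    · have h4 := hp 1 (h1T (by omega))
      rw [map_one] at h4
      exact absurd h4 one_ne_zero
    · obtain ⟨p, hp0, hpH, hpF, i, hi⟩ := hc H ⟨hH.holomorphic, fun z => by
        obtain ⟨p, hp, hpH⟩ := hHF z
        exact ⟨p, fun i => (hp i).1, fun i => (hp i).2, hpH⟩⟩ hH.nonconstant z
      exact ⟨p, fun i => ⟨hp0 i, hpF i⟩, hpH, i, hi⟩

/-- **Entire curves in complete intersections and their symmetric powers.**  Let `n, m ≥ 1`, all `d_j ≥ 2`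
(`j = 1, ..., c`), `B = 4 m - 3`, `L = 6 + log n + (log B) / (3 n)`, `D = ∑ (d_j - 1)`, and suppose one of
(1) `D ≥ 90000 B n ^ 2 L ^ 4` and `2 c ≤ 4 n + 8 n L`;
(2) `D ≥ 17100 B ^ 2 n ^ 4 (1 + log n)`;
(3) all `d_j ≥ 8 n L` and `D ≥ 1750 B n ^ 2 L ^ 2`;
(4) `c = 1` and `d_1 ≥ 1000 B n ^ 2 (6 + log n) ^ 2 + 1`;
(5) `∑ (d_j - 1) ≥ 250 B n ^ 2 (2 n + e) (1 + log n)`, where the sum is over the `j` with `d_j ≥ 4 n` and `e` is the
number of the other `j`;
(6) the sum of the `d_j - 1` without any `2 n - 1` of them is at least `64 B n ^ 2`;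
(7) `m = 1` and `D ≥ 90000 n ^ 2 L ^ 4`, or `m = 1`, `2 c > 4 n + 8 n L` and `D ≥ 6000 n ^ 2 L ^ 2`.
Then for all `k` with `0 ≤ k ≤ 2 n`, all `s ≥ 0` and all `c`-tuples `F` of forms of degrees `d_j` on `P ^ (k + c)`
outside an algebraic subset of codimension greater than `s` there is a closed subset `Z` of `X_F = {F = 0}` of codimension
greater than `2 n + c - k - s` in `P ^ (k + c)`, i.e. `dim Z < 2 (k - n) + s`, and empty if `2 k + s ≤ 2 n + 1`, such that
all nonconstant entire curves in the `m`-th symmetric power of `X_F` are contained in `Z + Sym ^ (m - 1) X_F`; for `m = 1`: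
all nonconstant entire curves in `X_F` are contained in `Z`.  For `k = n`, `s = 0`: for generic `F` (of dimension `n`) the
symmetric power contains no nonconstant entire curve. -/
theorem result (n m : ℕ) (hn : 1 ≤ n) (hm : 1 ≤ m) (c : ℕ) (d : Fin c → ℕ) (hd : ∀ j, 2 ≤ d j)
    (B L D : ℝ) (hB : B = 4 * m - 3) (hL : L = 6 + Real.log n + Real.log B / (3 * n))
    (hD : D = ∑ j, ((d j : ℝ) - 1))
    (h : 90000 * B * (n : ℝ) ^ 2 * L ^ 4 ≤ D ∧ 2 * (c : ℝ) ≤ 4 * n + 8 * n * L ∨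
      17100 * B ^ 2 * (n : ℝ) ^ 4 * (1 + Real.log n) ≤ D ∨
      (∀ j, 8 * (n : ℝ) * L ≤ d j) ∧ 1750 * B * (n : ℝ) ^ 2 * L ^ 2 ≤ D ∨
      c = 1 ∧ (∀ j, 1 + 1000 * B * (n : ℝ) ^ 2 * (6 + Real.log n) ^ 2 ≤ d j) ∨
      250 * B * (n : ℝ) ^ 2 * (2 * (n : ℝ) + (Finset.univ.filter fun j => d j < 4 * n).card) *
        (1 + Real.log n) ≤ ∑ j ∈ Finset.univ.filter (fun j => 4 * n ≤ d j), ((d j : ℝ) - 1) ∨
      (∀ K : Finset (Fin c), K.card < 2 * n → 64 * B * (n : ℝ) ^ 2 ≤ ∑ j ∈ Kᶜ, ((d j : ℝ) - 1)) ∨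
      m = 1 ∧ (90000 * (n : ℝ) ^ 2 * L ^ 4 ≤ D ∨
        4 * (n : ℝ) + 8 * n * L < 2 * c ∧ 6000 * (n : ℝ) ^ 2 * L ^ 2 ≤ D))
    (k s : ℕ) (hk : k ≤ 2 * n) :
    OutsideCodimension s (k + c) d fun F => EntireCurvesInCodimension m F (2 * n + c) (k + s) := by
  apply aux hk
  subst hD
  have hL' : L = 6 + (Real.log n + Real.log B / (3 * n)) := by rw [hL]; ring
  rcases h with ⟨h, hc⟩ | h | h | h | h | h | ⟨rfl, h⟩
  · refine Pool.Agent.H24C.spec_bounds hm hn hd hB (Or.inr (Or.inr (Or.inr (Or.inr (Or.inr ?_)))))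
    rw [← hL']
    exact ⟨hc, h⟩
  · refine Pool.Agent.H24C.spec_bounds hm hn hd hB (Or.inl (le_trans (le_of_eq ?_) h))
    ring
  · refine Pool.Agent.H24C.spec_bounds hm hn hd hB (Or.inr (Or.inr (Or.inr (Or.inr (Or.inl ?_)))))
    rw [← hL']
    exact h
  · exact Pool.Agent.H24C.spec_bounds hm hn hd hB (Or.inr (Or.inr (Or.inr (Or.inl h))))
  · refine Pool.Agent.H24C.spec_bounds hm hn hd hB (Or.inr (Or.inl (le_trans (le_of_eq ?_) h)))
    ring
  · refine Pool.Agent.H24C.spec_bounds hm hn hd hB (Or.inr (Or.inr (Or.inl fun K hK =>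
      le_trans (le_of_eq ?_) (h K hK))))
    ring
  · have hB1 : B = 1 := by rw [hB]; norm_num
    have hL1 : L = 6 + Real.log n := by rw [hL, hB1, Real.log_one]; ring
    rw [hL1] at h
    rcases h with h | ⟨hc, h⟩
    · exact Pool.Agent.H24C.spec_bounds_one hn hd (Or.inl h)
    · exact Pool.Agent.H24C.spec_bounds_one hn hd (Or.inr ⟨h, hc⟩)

end Pool.Agent.Results.MP_2a5ae2_ag.SpecialSets
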